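import Pool.Agent.H.MP_0fa314_co.A

namespace Pool.Agent.Results.MP_0fa314_co.Counter

theorem result (M : ℕ) :
    ∃ (V : Type) (_ : Fintype V) (G : SimpleGraph V) (_ : DecidableRel G.Adj),
      (SimpleGraph.cycleGraph 3).Free G ∧ (SimpleGraph.cycleGraph 5).Free G ∧
      Fintype.card V ≤ 28 * G.minDegree ∧
      ∀ (W : Type) [Fintype W] (Γ : SimpleGraph W), (SimpleGraph.cycleGraph 3).Free Γ →
        Nonempty (G →g Γ) → M < Fintype.card W := by
  classical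
  refine ⟨_, inferInstance, Pool.Agent.H.MP_0fa314_co.G (2 ^ M + 1), inferInstance,
    Pool.Agent.H.MP_0fa314_co.free3 _, Pool.Agent.H.MP_0fa314_co.free5 _, ?_, ?_⟩
  · have : Nonempty (Pool.Agent.H.MP_0fa314_co.U (2 ^ M + 1) ⊕
        Pool.Agent.H.MP_0fa314_co.X (2 ^ M + 1)) := ⟨.inl (0, 0, 0, 0)⟩
    obtain ⟨v, hv⟩ := (Pool.Agent.H.MP_0fa314_co.G (2 ^ M + 1)).exists_minimal_degree_vertex
    have h1 := Pool.Agent.H.MP_0fa314_co.deg (2 ^ M + 1) v
    have h2 := Pool.Agent.H.MP_0fa314_co.card_V (2 ^ M + 1)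
    rw [hv]
    omega
  · rintro W _ Γ hΓ ⟨f⟩
    have h := Pool.Agent.H.MP_0fa314_co.big Γ hΓ f
    by_contra hc
    have : 2 ^ Fintype.card W ≤ 2 ^ M := Nat.pow_le_pow_right (by norm_num) (by omega)
    omega

end Pool.Agent.Results.MP_0fa314_co.Counter
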